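import Mathlib

set_option autoImplicit false

open Set MeasureTheory
open scoped ContDiff Convolution

namespace Pool.Agent.H.MP_643687_an

lemma c1 (v : ℕ → ℝ → ℝ) (hv : ∀ k x, HasDerivAt (v k) (v (k + 1) x) x) (h0 : ∀ x, 0 ≤ v 0 x)
    (k : ℕ) : ∀ x0 c, 0 < c → ¬ ∀ x, x0 ≤ x → v k x ≤ -c := by
  induction k with
  | zero => exact fun x0 c hc h => by linarith [h x0 le_rfl, h0 x0]
  | succ k ih =>
    intro x0 c hc h
    refine ih (x0 + (|v k x0| + 1) / c) 1 one_pos fun x hx => ?_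
    have h1 : 0 ≤ (|v k x0| + 1) / c := by positivity
    have h2 := (convex_Ici x0).image_sub_le_mul_sub_of_deriv_le (f := v k) (C := -c)
      (fun y _ => (hv k y).continuousAt.continuousWithinAt)
      (fun y _ => (hv k y).differentiableAt.differentiableWithinAt)
      (fun y hy => by rw [(hv k y).deriv]; exact h y (interior_subset hy)) x0 self_mem_Ici x
      (by simp only [mem_Ici]; linarith) (by linarith)
    have h3 : (|v k x0| + 1) / c ≤ x - x0 := by linarith
    rw [div_le_iff₀ hc] at h3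
    linarith [le_abs_self (v k x0)]

lemma c2 (v : ℕ → ℝ → ℝ) (hv : ∀ k x, HasDerivAt (v k) (v (k + 1) x) x) (h0 : ∀ x, 0 ≤ v 0 x)
    (k : ℕ) (hk : ∀ x, v (k + 1) x ≤ 0) (x : ℝ) : 0 ≤ v k x := by
  by_contra h
  have ha : Antitone (v k) := antitone_of_deriv_nonpos (fun y => (hv k y).differentiableAt)
    fun y => by rw [(hv k y).deriv]; exact hk y
  exact c1 v hv h0 k x (-v k x) (by linarith) fun y hy => by linarith [ha hy]

lemma c3 (v : ℕ → ℝ → ℝ) (hv : ∀ k x, HasDerivAt (v k) (v (k + 1) x) x) (h0 : ∀ x, 0 ≤ v 0 x)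
    (k : ℕ) (ho : Odd k) (hk : ∀ x, v (k + 1) x ≤ 0) (x : ℝ) : v (k + 1) x = 0 := by
  have h1 := c2 v hv h0 k hk
  have h2 := c2 (fun j y => (-1) ^ j * v j (-y)) (fun j y => by
    have := ((hv j (-y)).comp y (hasDerivAt_neg y)).const_mul ((-1) ^ j)
    exact this.congr_deriv (by ring)) (fun y => by simpa using h0 (-y)) k (fun y => by
      simpa [ho.add_one.neg_one_pow] using hk (-y))
  have h3 : v k = fun _ => 0 := funext fun y => by
    have := h2 (-y)
    simp only [ho.neg_one_pow, neg_neg] at this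
    linarith [h1 y]
  have h4 := hv k x
  rw [h3] at h4
  exact h4.unique (hasDerivAt_const x 0)

theorem main (m : ℕ) (hm : Odd m) (p σ : ℝ) : ¬ ∃ u : ℝ → ℝ, (∀ᵐ x, 0 ≤ u x) ∧
    ¬ (∀ᵐ x, u x = 0) ∧ LocallyIntegrable u ∧ LocallyIntegrable (fun x => |x| ^ σ * u x ^ p) ∧
    ∀ φ : ℝ → ℝ, ContDiff ℝ ∞ φ → HasCompactSupport φ →
      ∫ x, u x * ((-1) ^ m * iteratedDeriv (2 * m) φ x) = ∫ x, |x| ^ σ * u x ^ p * φ x := by
  rintro ⟨u, h0, h1, h2, h3, h4⟩
  let ρ : ContDiffBump (0 : ℝ) := ⟨1, 2, one_pos, one_lt_two⟩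
  have hs : ∀ k, ContDiff ℝ ∞ (iteratedDeriv k ρ) := fun k => by
    rw [iteratedDeriv_eq_iterate]
    exact ContDiff.iterate_deriv k ρ.contDiff
  have hc : ∀ k, HasCompactSupport (iteratedDeriv k ρ) := fun k => by
    induction k with
    | zero => exact ρ.hasCompactSupport
    | succ k ih => rw [iteratedDeriv_succ]; exact ih.deriv
  let v : ℕ → ℝ → ℝ := fun k => u ⋆[ContinuousLinearMap.mul ℝ ℝ, volume] iteratedDeriv k ρ
  have hg : ∀ᵐ y, 0 ≤ |y| ^ σ * u y ^ p := by
    filter_upwards [h0] with y hy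
    positivity
  have hp : ∀ x, ∀ᵐ y, 0 ≤ |y| ^ σ * u y ^ p * ρ (x - y) := fun x => by
    filter_upwards [hg] with y hy
    exact mul_nonneg hy ρ.nonneg
  obtain ⟨k, hk⟩ : ∃ k, 2 * m = k + 1 := ⟨2 * m - 1, by have := hm.pos; omega⟩
  have hv : ∀ x, v (k + 1) x = -∫ y, |y| ^ σ * u y ^ p * ρ (x - y) := fun x => by
    rw [← h4 (fun y => ρ (x - y)) (ρ.contDiff.comp (by fun_prop))
      (ρ.hasCompactSupport.comp_homeomorph (Homeomorph.subLeft x)), ← integral_neg,
      iteratedDeriv_comp_const_sub, ← hk]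
    simp [v, convolution_def, hm.neg_one_pow]
  have key := c3 v (fun j x => by
    simp only [v, iteratedDeriv_succ]
    exact (hc j).hasDerivAt_convolution_right _ h2 ((hs j).of_le (by simp)) x)
    (fun x => integral_nonneg_of_ae (by
      filter_upwards [h0] with y hy
      exact mul_nonneg hy ρ.nonneg)) k (by
        have : Even (k + 1) := hk ▸ even_two_mul m
        exact Nat.not_even_iff_odd.1 (Nat.even_add_one.1 this))
    (fun x => by rw [hv, neg_nonpos]; exact integral_nonneg_of_ae (hp x))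
  have h5 : ∀ j : ℤ, ∀ᵐ y, |y| ^ σ * u y ^ p * ρ (j - y) = 0 := fun j => by
    have := key j
    rw [hv, neg_eq_zero] at this
    exact (integral_eq_zero_iff_of_nonneg_ae (hp j) (ρ.hasCompactSupport.convolutionExists_right
      (ContinuousLinearMap.mul ℝ ℝ) h3 ρ.continuous j)).1 this
  apply h1
  filter_upwards [ae_all_iff.2 h5, h0, compl_mem_ae_iff.2 (measure_singleton (0 : ℝ))]
    with y a1 a2 a3
  have a4 := a1 ⌊y⌋
  rw [ρ.one_of_mem_closedBall (by
    rw [mem_closedBall_zero_iff, Real.norm_eq_abs, abs_le]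
    constructor <;> linarith [Int.floor_le y, Int.lt_floor_add_one y]), mul_one] at a4
  have a5 : 0 < |y| ^ σ := Real.rpow_pos_of_pos (abs_pos.2 a3) _
  exact ((Real.rpow_eq_zero_iff_of_nonneg a2).1 ((mul_eq_zero.1 a4).resolve_left a5.ne')).1

end Pool.Agent.H.MP_643687_an
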